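import Pool.Agent.N299.ND.Stm

/-!
# Project ND (helper299), part AOZ (helper157): block maps are approximately multiplicative
-/

set_option autoImplicit false

open scoped BoundedContinuousFunction Topology Matrix.Norms.L2Operator
open Filter

noncomputable section

namespace Pool.Agent.N157.ND

open Pool.Agent.N299 Pool.Agent.N299.DT Pool.Agent.N299.ND

/-- the estimate in a normed ring -/
theorem est {B : Type} [CStarAlgebra B] {δ : ℝ} {Tx Ty Txy H x y : B} (hH : ‖H‖ ≤ 1) (hTy : ‖Ty‖ ≤ ‖y‖)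
    (h1 : ‖Tx - H * x‖ ≤ δ) (h2 : ‖Ty - y * H‖ ≤ δ) (h3 : ‖Txy - x * y * H‖ ≤ δ)
    (h4 : ‖Txy - H * (x * y)‖ ≤ δ) :
    ‖Tx * Ty - H * Txy‖ ≤ δ * (‖x‖ + ‖y‖ + 1) ∧ ‖Tx * Ty - Txy * H‖ ≤ δ * (‖x‖ + ‖y‖ + 1) := by
  have hδ : 0 ≤ δ := (norm_nonneg _).trans h1
  have a0 : ‖Tx * Ty - H * (x * y) * H‖ ≤ δ * (‖x‖ + ‖y‖) := by
    have e : Tx * Ty - H * (x * y) * H = (Tx - H * x) * Ty + H * x * (Ty - y * H) := by noncomm_ring
    rw [e]
    have b1 : ‖(Tx - H * x) * Ty‖ ≤ δ * ‖y‖ :=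
      (norm_mul_le _ _).trans (mul_le_mul h1 hTy (norm_nonneg _) hδ)
    have b2 : ‖H * x * (Ty - y * H)‖ ≤ ‖x‖ * δ := by
      refine (norm_mul_le _ _).trans (mul_le_mul ?_ h2 (norm_nonneg _) (norm_nonneg _))
      refine (norm_mul_le _ _).trans ?_
      have := mul_le_mul_of_nonneg_right hH (norm_nonneg x)
      linarith
    calc _ ≤ ‖(Tx - H * x) * Ty‖ + ‖H * x * (Ty - y * H)‖ := norm_add_le _ _
      _ ≤ δ * ‖y‖ + ‖x‖ * δ := add_le_add b1 b2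
      _ = _ := by ring
  constructor
  · have e : Tx * Ty - H * Txy = (Tx * Ty - H * (x * y) * H) - H * (Txy - x * y * H) := by
      noncomm_ring
    rw [e]
    have b : ‖H * (Txy - x * y * H)‖ ≤ δ := by
      refine (norm_mul_le _ _).trans ?_
      have := mul_le_mul hH h3 (norm_nonneg _) zero_le_one
      linarith
    calc _ ≤ ‖Tx * Ty - H * (x * y) * H‖ + ‖H * (Txy - x * y * H)‖ := norm_sub_le _ _
      _ ≤ δ * (‖x‖ + ‖y‖) + δ := add_le_add a0 b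
      _ = _ := by ring
  · have e : Tx * Ty - Txy * H = (Tx * Ty - H * (x * y) * H) - (Txy - H * (x * y)) * H := by
      noncomm_ring
    rw [e]
    have b : ‖(Txy - H * (x * y)) * H‖ ≤ δ := by
      refine (norm_mul_le _ _).trans ?_
      have := mul_le_mul h4 hH (norm_nonneg _) hδ
      linarith
    calc _ ≤ ‖Tx * Ty - H * (x * y) * H‖ + ‖(Txy - H * (x * y)) * H‖ := norm_sub_le _ _
      _ ≤ δ * (‖x‖ + ‖y‖) + δ := add_le_add a0 b
      _ = _ := by ring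

theorem t_AOZ (hNB : S_NB) : S_AOZ := by
  intro B _ I hI n ψ φ hb hoz δ e x y he hx hy hen h1 h2 h3 h4
  have hee : e * e ∈ I := hI.mulL e he e
  have hH : ‖φ (ψ (e * e))‖ ≤ 1 := by
    refine (hb.φn _).trans ((hb.ψn _ hee).trans ((norm_mul_le _ _).trans ?_))
    have := norm_nonneg e
    nlinarith
  have hTy : ‖φ (ψ y)‖ ≤ ‖y‖ := (hb.φn _).trans (hb.ψn _ hy)
  obtain ⟨c1, c2⟩ := est hH hTy h1 h2 h3 h4
  constructor
  · have h := hNB n B φ hoz (ψ x * ψ y - ψ (e * e) * ψ (x * y))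
    rw [map_sub, mul_sub, ← hoz.mul, ← hoz.mul] at h
    calc _ = ‖ψ x * ψ y - ψ (e * e) * ψ (x * y)‖ * ‖φ 1‖ ^ 4 := mul_comm _ _
      _ ≤ _ := h.trans c1
  · have h := hNB n B φ hoz (ψ x * ψ y - ψ (x * y) * ψ (e * e))
    rw [map_sub, mul_sub, ← hoz.mul, ← hoz.mul] at h
    calc _ = ‖ψ x * ψ y - ψ (x * y) * ψ (e * e)‖ * ‖φ 1‖ ^ 4 := mul_comm _ _
      _ ≤ _ := h.trans c2

end Pool.Agent.N157.ND
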